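import Pool.Agent.Y600.DC.Stm

/-!
# The greedy (multiplicative weights) covering sequence
-/

set_option autoImplicit false

namespace Pool.Agent.H219.BC

open Pool.Agent.Y600.DC

variable {n : ℕ}

theorem cnt_le (G : SimpleGraph (Fin n)) (pick : ℕ → Fin n) (t : ℕ) (v : Fin n) :
    cnt G pick t v ≤ t := by
  classical
  unfold cnt
  exact (Finset.card_filter_le _ _).trans (by rw [Finset.card_range])

open Classical in
theorem cnt_succ (G : SimpleGraph (Fin n)) (pick : ℕ → Fin n) (t : ℕ) (v : Fin n) :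
    cnt G pick (t + 1) v = cnt G pick t v + if Close G v (pick t) then 1 else 0 := by
  unfold cnt
  rw [Finset.range_add_one, Finset.filter_insert]
  split_ifs with h
  · rw [Finset.card_insert_of_notMem (by simp)]
  · rfl

/-- the real weight of a vertex -/
noncomputable def wt (G : SimpleGraph (Fin n)) (pick : ℕ → Fin n) (t : ℕ) (v : Fin n) : ℝ :=
  (1 - 1 / (2 * n + 2)) ^ cnt G pick t v

theorem wt_pos (G : SimpleGraph (Fin n)) (pick : ℕ → Fin n) (t : ℕ) (v : Fin n) :
    0 < wt G pick t v := by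
  unfold wt
  have : (1 : ℝ) / (2 * n + 2) < 1 := by
    rw [div_lt_one (by positivity)]
    have : (0 : ℝ) ≤ n := Nat.cast_nonneg n
    linarith
  apply pow_pos
  linarith

open Classical in
theorem load_eq (G : SimpleGraph (Fin n)) (pick : ℕ → Fin n) (t : ℕ) (u : Fin n) :
    (load G pick t u : ℝ) = (2 * n + 2) ^ t *
      ∑ v ∈ Finset.univ.filter (fun v => Close G v u), wt G pick t v := by
  unfold load wt
  push_cast
  rw [Finset.mul_sum]
  refine Finset.sum_congr rfl fun v _ => ?_
  have h1 : (2 * (n : ℝ) + 1) = (2 * n + 2) * (1 - 1 / (2 * n + 2)) := by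
    field_simp; ring
  rw [h1, mul_pow, mul_right_comm, ← pow_add, Nat.add_sub_cancel' (cnt_le G pick t v)]

open Classical in
theorem wt_succ (G : SimpleGraph (Fin n)) (pick : ℕ → Fin n) (t : ℕ) :
    ∑ v, wt G pick (t + 1) v = ∑ v, wt G pick t v - (1 / (2 * n + 2)) *
      ∑ v ∈ Finset.univ.filter (fun v => Close G v (pick t)), wt G pick t v := by
  rw [Finset.mul_sum, Finset.sum_filter, ← Finset.sum_sub_distrib]
  refine Finset.sum_congr rfl fun v _ => ?_
  unfold wt
  rw [cnt_succ]
  split_ifs with h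
  · rw [pow_succ]; ring
  · simp

/-- **DC-MWU.** -/
theorem mwu : S_MWU := by
  intro n G pick hg D hD v
  classical
  have hn : 0 < n := v.pos
  have hn' : (1 : ℝ) ≤ n := by exact_mod_cast hn
  -- D is nonempty and has at most n elements
  have hDpos : 0 < D.card := by
    rw [Finset.card_pos]
    by_cases h : v ∈ D
    · exact ⟨v, h⟩
    · obtain ⟨w, hw, _⟩ := hD v h
      exact ⟨w, hw⟩
  have hDn : D.card ≤ n := by simpa using Finset.card_le_univ D
  set γ : ℝ := (D.card : ℝ) with hγ
  have hγ1 : (1 : ℝ) ≤ γ := by rw [hγ]; exact_mod_cast hDpos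
  have hγn : γ ≤ n := by rw [hγ]; exact_mod_cast hDn
  set ε : ℝ := 1 / (2 * n + 2) with hε
  have hε0 : 0 < ε := by positivity
  have hε1 : ε ≤ 1 / 4 := by
    rw [hε, div_le_div_iff₀ (by positivity) (by norm_num)]; linarith
  -- the weight decreases
  have hstep : ∀ t < rounds n, ∑ v, wt G pick (t + 1) v ≤ (1 - ε / γ) * ∑ v, wt G pick t v := by
    intro t ht
    have h1 : ∑ v, wt G pick t v ≤ ∑ u ∈ D, ∑ v ∈ Finset.univ.filter (fun v => Close G v u),
        wt G pick t v := by
      have h2 : ∀ x : Fin n, ∃ u ∈ D, Close G x u := by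
        intro x
        by_cases h : x ∈ D
        · exact ⟨x, h, Or.inl rfl⟩
        · obtain ⟨w, hw, h'⟩ := hD x h
          exact ⟨w, hw, Or.inr h'⟩
      simp_rw [Finset.sum_filter]
      rw [Finset.sum_comm]
      refine Finset.sum_le_sum fun x _ => ?_
      obtain ⟨u, hu, hxu⟩ := h2 x
      refine le_trans (le_of_eq ?_) (Finset.single_le_sum (f := fun u =>
        if Close G x u then wt G pick t x else 0) (fun u _ => ?_) hu)
      · rw [if_pos hxu]
      · split_ifs
        · exact (wt_pos G pick t x).le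
        · exact le_rfl
    have h3 : ∀ u ∈ D, ∑ v ∈ Finset.univ.filter (fun v => Close G v u), wt G pick t v ≤
        ∑ v ∈ Finset.univ.filter (fun v => Close G v (pick t)), wt G pick t v := by
      intro u _
      have h4 : (load G pick t u : ℝ) ≤ load G pick t (pick t) := by exact_mod_cast hg t ht u
      rw [load_eq, load_eq] at h4
      exact le_of_mul_le_mul_left h4 (by positivity)
    have h5 := Finset.sum_le_card_nsmul D _ _ h3
    rw [nsmul_eq_mul, ← hγ] at h5
    rw [wt_succ, ← hε]
    have h6 : (∑ v, wt G pick t v) / γ ≤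
        ∑ v ∈ Finset.univ.filter (fun v => Close G v (pick t)), wt G pick t v := by
      rw [div_le_iff₀ (by linarith)]
      linarith
    have h7 := mul_le_mul_of_nonneg_left h6 hε0.le
    have h8 : (1 - ε / γ) * ∑ v, wt G pick t v = ∑ v, wt G pick t v -
        ε * ((∑ v, wt G pick t v) / γ) := by ring
    rw [h8]
    linarith
  have hfac : 0 ≤ 1 - ε / γ := by
    have : ε / γ ≤ ε := div_le_self hε0.le hγ1
    linarith
  have hall : ∀ t ≤ rounds n, ∑ v, wt G pick t v ≤ (1 - ε / γ) ^ t * n := by
    intro t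
    induction t with
    | zero => intro _; simp [wt, cnt]
    | succ t ih =>
      intro ht
      refine (hstep t (by omega)).trans ?_
      rw [pow_succ', mul_assoc]
      exact mul_le_mul_of_nonneg_left (ih (by omega)) hfac
  have hv : wt G pick (rounds n) v ≤ (1 - ε / γ) ^ rounds n * n :=
    (Finset.single_le_sum (fun v _ => (wt_pos G pick _ v).le) (Finset.mem_univ v)).trans
      (hall _ le_rfl)
  -- logarithms
  set T : ℝ := (rounds n : ℝ) with hT
  have hTn : T = 8 * (n + 1) ^ 4 := by rw [hT, rounds]; push_cast; ring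
  set c : ℝ := (cnt G pick (rounds n) v : ℝ) with hc
  have hn0 : (0 : ℝ) < n := by linarith
  have hfac' : 0 < 1 - ε / γ := by
    have : ε / γ ≤ ε := div_le_self hε0.le hγ1
    linarith
  have h1 : c * Real.log (1 - ε) ≤ T * Real.log (1 - ε / γ) + Real.log n := by
    have h2 := Real.log_le_log (wt_pos G pick _ v) hv
    rw [Real.log_mul (pow_pos hfac' _).ne' hn0.ne', Real.log_pow] at h2
    unfold wt at h2
    rw [Real.log_pow] at h2
    exact h2
  have h2 : Real.log (1 - ε / γ) ≤ - (ε / γ) := by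
    have := Real.log_le_sub_one_of_pos hfac'
    linarith
  have h3 : - (ε / (1 - ε)) ≤ Real.log (1 - ε) := by
    have := Real.one_sub_inv_le_log_of_pos (x := 1 - ε) (by linarith)
    have h4 : 1 - (1 - ε)⁻¹ = - (ε / (1 - ε)) := by
      have : (1 - ε) ≠ 0 := by linarith
      field_simp
      ring
    linarith
  have h4 : Real.log n ≤ n - 1 := Real.log_le_sub_one_of_pos hn0
  have hc0 : 0 ≤ c := Nat.cast_nonneg _
  have hT0 : 0 < T := by rw [hTn]; positivity
  have h5 : T * (ε / γ) - n ≤ c * (ε / (1 - ε)) := by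
    have h6 := mul_le_mul_of_nonneg_left h3 hc0
    have h7 := mul_le_mul_of_nonneg_left h2 hT0.le
    nlinarith
  have hεq : ε * (2 * n + 2) = 1 := by rw [hε]; field_simp
  have h6 : T < (γ + 1) * c := by
    have a1 : (1 - ε) * (T / γ - n * (2 * n + 2)) ≤ c := by
      have := mul_le_mul_of_nonneg_left h5 (show 0 ≤ (1 - ε) * (2 * n + 2) by
        apply mul_nonneg <;> linarith)
      have e1 : (1 - ε) * (2 * n + 2) * (T * (ε / γ) - n) =
          (1 - ε) * ((ε * (2 * n + 2)) * (T / γ) - n * (2 * n + 2)) := by ring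
      have e2 : (1 - ε) * (2 * n + 2) * (c * (ε / (1 - ε))) = (ε * (2 * n + 2)) * c := by
        have : (1 - ε) ≠ 0 := by linarith
        field_simp
      rw [e1, e2, hεq, one_mul, one_mul] at this
      exact this
    have a2 := mul_le_mul_of_nonneg_left a1 (show 0 ≤ γ + 1 by linarith)
    have a3 : 1 + 1 / (2 * n) ≤ (γ + 1) * (1 - ε) / γ := by
      have b1 : (1 : ℝ) / (2 * n) ≤ 1 / (2 * γ) :=
        one_div_le_one_div_of_le (by linarith) (by linarith)
      have b2 : 1 + 1 / (2 * γ) ≤ (γ + 1) * (1 - ε) / γ := by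
        rw [le_div_iff₀ (by linarith)]
        have b3 : (1 + 1 / (2 * γ)) * γ = γ + 1 / 2 := by
          have : γ ≠ 0 := by linarith
          field_simp
        rw [b3]
        have b4 : ε * (γ + 1) ≤ 1 / 2 := by
          have : ε * (γ + 1) ≤ ε * (n + 1) := mul_le_mul_of_nonneg_left (by linarith) hε0.le
          nlinarith
        nlinarith
      linarith
    have a4 : T + T / (2 * n) ≤ (γ + 1) * ((1 - ε) * (T / γ)) := by
      have := mul_le_mul_of_nonneg_left a3 hT0.le
      have e1 : T * (1 + 1 / (2 * n)) = T + T / (2 * n) := by ring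
      have e2 : T * ((γ + 1) * (1 - ε) / γ) = (γ + 1) * ((1 - ε) * (T / γ)) := by ring
      linarith
    have a5 : (γ + 1) * ((1 - ε) * (n * (2 * n + 2))) ≤ (n + 1) * (n * (2 * n + 2)) := by
      have b1 : (1 - ε) * (n * (2 * n + 2)) ≤ n * (2 * n + 2) := by
        have : (0 : ℝ) ≤ n * (2 * n + 2) := by positivity
        nlinarith
      have b0 : 0 ≤ (1 - ε) * (n * (2 * n + 2)) := by
        apply mul_nonneg (by linarith) (by positivity)
      exact mul_le_mul (by linarith) b1 b0 (by linarith)
    have a6 : (n + 1) * (n * (2 * n + 2)) < T / (2 * n) := by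
      rw [lt_div_iff₀ (by linarith), hTn]
      have e1 : (8 : ℝ) * (n + 1) ^ 4 - (n + 1) * (n * (2 * n + 2)) * (2 * n) =
        4 * (n + 1) ^ 2 * (2 * (n + 1) ^ 2 - n ^ 2) := by ring
      have : (0 : ℝ) < 4 * (n + 1) ^ 2 * (2 * (n + 1) ^ 2 - n ^ 2) := by
        apply mul_pos (by positivity)
        nlinarith
      linarith
    have e3 : (γ + 1) * ((1 - ε) * (T / γ - n * (2 * n + 2))) =
      (γ + 1) * ((1 - ε) * (T / γ)) - (γ + 1) * ((1 - ε) * (n * (2 * n + 2))) := by ring
    linarith
  have h7 : (rounds n : ℝ) < ((D.card + 1) * cnt G pick (rounds n) v : ℕ) := by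
    push_cast
    exact h6
  exact_mod_cast h7

end Pool.Agent.H219.BC
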