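import Pool.Agent.NPC.Dec
import Pool.Agent.H219.BC.Mwu

/-!
# The greedy covering sequence is computable in polynomial time
-/

set_option autoImplicit false

namespace Pool.Agent.H219.BC

open Pool.Agent.NPC Pool.Agent.NPC.R671 Pool.Agent.Y600.DC

/-- equal or adjacent, from the matrix -/
def close (M : List (List Bool)) (v u : ℕ) : Bool :=
  decide (v = u) || (M.getD v []).getD u false

/-- the load of the vertex `u` -/
def loadL (M : List (List Bool)) (w : List ℕ) (u : ℕ) : ℕ :=
  ((List.range M.length).map (fun v => bif close M v u then w.getD v 0 else 0)).sum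

/-- all loads -/
def loads (M : List (List Bool)) (w : List ℕ) : List ℕ := (List.range M.length).map (loadL M w)

/-- a vertex of maximum load -/
def best (M : List (List Bool)) (w : List ℕ) : ℕ :=
  (((List.range M.length).filter
    (fun u => (loads M w).all (fun x => decide (x ≤ (loads M w).getD u 0)))).head?).getD 0

/-- new weights -/
def newW (M : List (List Bool)) (w : List ℕ) (p : ℕ) : List ℕ :=
  (List.range M.length).map (fun v => bif close M v p then w.getD v 0 * (2 * M.length + 1)
    else w.getD v 0 * (2 * M.length + 2))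

/-- new counts -/
def newC (M : List (List Bool)) (c : List ℕ) (p : ℕ) : List ℕ :=
  (List.range M.length).map (fun v => bif close M v p then c.getD v 0 + 1 else c.getD v 0)

/-- one round -/
def stepS (M : List (List Bool)) (s : List ℕ × List ℕ) : List ℕ × List ℕ :=
  (newW M s.1 (best M s.1), newC M s.2 (best M s.1))

/-- the initial state -/
def initS (M : List (List Bool)) : List ℕ × List ℕ :=
  ((List.range M.length).map (fun _ => 1), (List.range M.length).map (fun _ => 0))

/-- the state after `t` rounds -/
def stateS (M : List (List Bool)) (t : ℕ) : List ℕ × List ℕ := (stepS M)^[t] (initS M)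

/-- the answer -/
def ans (p : List (List Bool) × ℕ) : Bool :=
  (List.range p.1.length).all (fun v => decide (rounds p.1.length <
    (p.2 + 1) * (stateS p.1 (rounds p.1.length)).2.getD v 0))

section poly

open NPC.Poly

variable {α : Type} [TEnc α]

theorem poly_close {M : α → List (List Bool)} {v u : α → ℕ} (hM : Poly M) (hv : Poly v)
    (hu : Poly u) : Poly (fun a => close (M a) (v a) (u a)) :=
  Poly.or (Poly.decide_eq hv hu) (Poly.getD (Poly.getD hM hv (NPC.Poly.const [])) hu (NPC.Poly.const false))

theorem poly_loadL {M : α → List (List Bool)} {w : α → List ℕ} {u : α → ℕ} (hM : Poly M)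
    (hw : Poly w) (hu : Poly u) : Poly (fun a => loadL (M a) (w a) (u a)) := by
  refine Poly.sum (NPC.Poly.map (l := fun a => List.range (M a).length)
    (F := fun a v => bif close (M a) v (u a) then (w a).getD v 0 else 0)
    (UPoly.length hM).range ?_)
  exact Poly.cond (poly_close (hM.comp (Poly.fst Poly.id)) (Poly.snd Poly.id)
    (hu.comp (Poly.fst Poly.id))) (Poly.getD (hw.comp (Poly.fst Poly.id)) (Poly.snd Poly.id)
    (NPC.Poly.const 0)) (NPC.Poly.const 0)

theorem poly_loads {M : α → List (List Bool)} {w : α → List ℕ} (hM : Poly M)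
    (hw : Poly w) : Poly (fun a => loads (M a) (w a)) :=
  NPC.Poly.map (l := fun a => List.range (M a).length) (F := fun a u => loadL (M a) (w a) u)
    (UPoly.length hM).range (poly_loadL (hM.comp (Poly.fst Poly.id)) (hw.comp (Poly.fst Poly.id))
      (Poly.snd Poly.id))

theorem poly_best {M : α → List (List Bool)} {w : α → List ℕ} (hM : Poly M)
    (hw : Poly w) : Poly (fun a => best (M a) (w a)) := by
  have h1 : Poly (fun p : α × ℕ => (loads (M p.1) (w p.1)).all
      (fun x => decide (x ≤ (loads (M p.1) (w p.1)).getD p.2 0))) := by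
    refine Poly.all (l := fun p : α × ℕ => loads (M p.1) (w p.1))
      (p := fun p x => decide (x ≤ (loads (M p.1) (w p.1)).getD p.2 0))
      (poly_loads (hM.comp (Poly.fst Poly.id)) (hw.comp (Poly.fst Poly.id))) ?_
    refine Poly.decide_le (Poly.snd Poly.id) (Poly.getD (poly_loads
      (hM.comp (Poly.fst (Poly.fst Poly.id))) (hw.comp (Poly.fst (Poly.fst Poly.id))))
      (Poly.snd (Poly.fst Poly.id)) (NPC.Poly.const 0))
  exact Poly.head?_getD (Poly.filter (l := fun a => List.range (M a).length)
    (p := fun a u => (loads (M a) (w a)).all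
      (fun x => decide (x ≤ (loads (M a) (w a)).getD u 0))) (UPoly.length hM).range h1) 0

theorem poly_newW {M : α → List (List Bool)} {w : α → List ℕ} {p : α → ℕ} (hM : Poly M)
    (hw : Poly w) (hp : Poly p) : Poly (fun a => newW (M a) (w a) (p a)) := by
  refine NPC.Poly.map (l := fun a => List.range (M a).length)
    (F := fun a v => bif close (M a) v (p a) then (w a).getD v 0 * (2 * (M a).length + 1)
      else (w a).getD v 0 * (2 * (M a).length + 2)) (UPoly.length hM).range ?_
  have hg : Poly (fun x : α × ℕ => (w x.1).getD x.2 0) := Poly.getD (hw.comp (Poly.fst Poly.id))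
    (Poly.snd Poly.id) (NPC.Poly.const 0)
  have hl : Poly (fun x : α × ℕ => (M x.1).length) := Poly.length (hM.comp (Poly.fst Poly.id))
  exact Poly.cond (poly_close (hM.comp (Poly.fst Poly.id)) (Poly.snd Poly.id)
    (hp.comp (Poly.fst Poly.id))) (Poly.mul hg (Poly.add (Poly.mul (NPC.Poly.const 2) hl)
      (NPC.Poly.const 1))) (Poly.mul hg (Poly.add (Poly.mul (NPC.Poly.const 2) hl) (NPC.Poly.const 2)))

theorem poly_newC {M : α → List (List Bool)} {c : α → List ℕ} {p : α → ℕ} (hM : Poly M)
    (hc : Poly c) (hp : Poly p) : Poly (fun a => newC (M a) (c a) (p a)) := by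
  refine NPC.Poly.map (l := fun a => List.range (M a).length)
    (F := fun a v => bif close (M a) v (p a) then (c a).getD v 0 + 1
      else (c a).getD v 0) (UPoly.length hM).range ?_
  have hg : Poly (fun x : α × ℕ => (c x.1).getD x.2 0) := Poly.getD (hc.comp (Poly.fst Poly.id))
    (Poly.snd Poly.id) (NPC.Poly.const 0)
  exact Poly.cond (poly_close (hM.comp (Poly.fst Poly.id)) (Poly.snd Poly.id)
    (hp.comp (Poly.fst Poly.id))) (Poly.add hg (NPC.Poly.const 1)) hg

theorem poly_stepS : Poly (fun x : List (List Bool) × (List ℕ × List ℕ) => stepS x.1 x.2) := by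
  have hM : Poly (fun x : List (List Bool) × (List ℕ × List ℕ) => x.1) := Poly.fst Poly.id
  have hw : Poly (fun x : List (List Bool) × (List ℕ × List ℕ) => x.2.1) :=
    Poly.fst (Poly.snd Poly.id)
  have hc : Poly (fun x : List (List Bool) × (List ℕ × List ℕ) => x.2.2) :=
    Poly.snd (Poly.snd Poly.id)
  exact Poly.pair (poly_newW hM hw (poly_best hM hw)) (poly_newC hM hc (poly_best hM hw))

theorem poly_initS : Poly (fun M : List (List Bool) => initS M) :=
  Poly.pair (NPC.Poly.map (l := fun M : List (List Bool) => List.range M.length) (F := fun _ _ => 1)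
    (UPoly.length Poly.id).range (NPC.Poly.const 1))
    (NPC.Poly.map (l := fun M : List (List Bool) => List.range M.length) (F := fun _ _ => 0)
    (UPoly.length Poly.id).range (NPC.Poly.const 0))

theorem newW_len (M : List (List Bool)) (w : List ℕ) (p : ℕ) : (newW M w p).length = M.length := by
  simp [newW]

theorem newC_len (M : List (List Bool)) (w : List ℕ) (p : ℕ) : (newC M w p).length = M.length := by
  simp [newC]

/-- size invariant -/
theorem inv (M : List (List Bool)) (t : ℕ) :
    (stateS M t).1.length = M.length ∧ (stateS M t).2.length = M.length ∧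
    (∀ v, (stateS M t).1.getD v 0 ≤ (2 * M.length + 2) ^ t) ∧
    (∀ v, (stateS M t).2.getD v 0 ≤ t) := by
  induction t with
  | zero =>
    refine ⟨by simp [stateS, initS], by simp [stateS, initS], fun v => ?_, fun v => ?_⟩
    · simp only [stateS, initS, Function.iterate_zero, id_eq, List.getD_eq_getElem?_getD,
        List.getElem?_map, pow_zero]
      cases (List.range M.length)[v]? <;> simp
    · simp only [stateS, initS, Function.iterate_zero, id_eq, List.getD_eq_getElem?_getD,
        List.getElem?_map]
      cases (List.range M.length)[v]? <;> simp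
  | succ t ih =>
    obtain ⟨h1, h2, h3, h4⟩ := ih
    have hs : stateS M (t + 1) = stepS M (stateS M t) := by
      unfold stateS; rw [Function.iterate_succ_apply']
    rw [hs]
    refine ⟨newW_len _ _ _, newC_len _ _ _, fun v => ?_, fun v => ?_⟩
    · simp only [stepS, newW, List.getD_eq_getElem?_getD, List.getElem?_map]
      rcases Nat.lt_or_ge v M.length with hv | hv
      · rw [List.getElem?_range hv]
        simp only [Option.map_some, Option.getD_some]
        have h5 := h3 v
        rw [List.getD_eq_getElem?_getD] at h5
        rw [pow_succ]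
        cases close M v (best M (stateS M t).1)
        · exact Nat.mul_le_mul h5 le_rfl
        · exact Nat.mul_le_mul h5 (by omega)
      · rw [List.getElem?_eq_none (by simpa using hv)]
        simp
    · simp only [stepS, newC, List.getD_eq_getElem?_getD, List.getElem?_map]
      rcases Nat.lt_or_ge v M.length with hv | hv
      · rw [List.getElem?_range hv]
        simp only [Option.map_some, Option.getD_some]
        have h5 := h4 v
        rw [List.getD_eq_getElem?_getD] at h5
        cases close M v (best M (stateS M t).1)
        · exact h5.trans (Nat.le_succ _)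
        · exact Nat.succ_le_succ h5
      · rw [List.getElem?_eq_none (by simpa using hv)]
        simp

theorem size_pow_le (n t : ℕ) : ((2 * n + 2) ^ t).size ≤ (2 * n + 2) * t + 1 := by
  rw [Nat.size_le]
  calc (2 * n + 2) ^ t ≤ (2 ^ (2 * n + 2)) ^ t := Nat.pow_le_pow_left Nat.lt_two_pow_self.le t
    _ = 2 ^ ((2 * n + 2) * t) := by rw [← pow_mul]
    _ < 2 ^ ((2 * n + 2) * t + 1) := Nat.pow_lt_pow_right (by norm_num) (by omega)

theorem sz_state (M : List (List Bool)) (t : ℕ) :
    sz (stateS M t) ≤ 2 * (M.length * (4 * ((2 * M.length + 2) * t + 1) + 2) + 1) + 1 := by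
  obtain ⟨h1, h2, h3, h4⟩ := inv M t
  have e1 : sz (stateS M t).1 ≤ M.length * (4 * ((2 * M.length + 2) * t + 1) + 2) + 1 := by
    have := sz_le_length_mul (stateS M t).1 (4 * ((2 * M.length + 2) * t + 1) + 1) (by
      intro a ha
      obtain ⟨v, hv, rfl⟩ := List.mem_iff_getElem.1 ha
      have h5 := h3 v
      rw [List.getD_eq_getElem _ _ hv] at h5
      refine (sz_nat_le _).trans ?_
      have h6 := Nat.size_le_size h5
      have h7 := size_pow_le M.length t
      omega)
    rw [h1] at this
    convert this using 2
  have e2 : sz (stateS M t).2 ≤ M.length * (4 * ((2 * M.length + 2) * t + 1) + 2) + 1 := by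
    have := sz_le_length_mul (stateS M t).2 (4 * ((2 * M.length + 2) * t + 1) + 1) (by
      intro a ha
      obtain ⟨v, hv, rfl⟩ := List.mem_iff_getElem.1 ha
      have h5 := h4 v
      rw [List.getD_eq_getElem _ _ hv] at h5
      refine (sz_nat_le _).trans ?_
      have h6 := size_le_self (stateS M t).2[v]
      have h7 : t ≤ (2 * M.length + 2) * t := Nat.le_mul_of_pos_left _ (by omega)
      omega)
    rw [h2] at this
    convert this using 2
  have e3 : sz (stateS M t) = sz (stateS M t).1 + sz (stateS M t).2 + 1 := by
    rw [← sz_pair]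
  omega

theorem poly_run : Poly (fun M : List (List Bool) => stateS M (rounds M.length)) := by
  have hT : UPoly (fun M : List (List Bool) => rounds M.length) := by
    have h1 : UPoly (fun M : List (List Bool) => M.length + 1) :=
      UPoly.add (UPoly.length Poly.id) (UPoly.const 1)
    have h2 := UPoly.mul (UPoly.const 8) (UPoly.mul (UPoly.mul h1 h1) (UPoly.mul h1 h1))
    refine Poly.congr h2 fun M => ?_
    congr 1
    unfold rounds
    ring
  refine (Poly.iterLen (l := fun M : List (List Bool) => List.replicate (rounds M.length) ())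
    (s := fun M => initS M) (F := fun M s => stepS M s) hT poly_initS poly_stepS
    (Polynomial.C 2 * (Polynomial.X * (Polynomial.C 4 * ((Polynomial.C 2 * Polynomial.X +
      Polynomial.C 2) * (Polynomial.C 8 * (Polynomial.X + Polynomial.C 1) ^ 4) + Polynomial.C 1) +
      Polynomial.C 2) + Polynomial.C 1) + Polynomial.C 1) ?_).congr fun M => ?_
  · intro M k hk
    rw [List.length_replicate] at hk
    refine (sz_state M k).trans ?_
    have h1 : M.length ≤ sz M := (length_lt_sz M).le
    simp only [Polynomial.eval_add, Polynomial.eval_mul, Polynomial.eval_pow, Polynomial.eval_C,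
      Polynomial.eval_X]
    unfold rounds at hk
    have h2 : k ≤ 8 * (sz M + 1) ^ 4 := hk.trans (by gcongr)
    gcongr
  · simp only [List.length_replicate]
    rfl

theorem poly_ans : Poly ans := by
  have hT : Poly (fun p : (List (List Bool) × ℕ) × ℕ => rounds p.1.1.length) := by
    have h1 : Poly (fun p : (List (List Bool) × ℕ) × ℕ => p.1.1.length + 1) :=
      Poly.add (Poly.length (Poly.fst (Poly.fst Poly.id))) (NPC.Poly.const 1)
    have h2 := Poly.mul (NPC.Poly.const 8) (Poly.mul (Poly.mul h1 h1) (Poly.mul h1 h1))
    refine Poly.congr h2 fun M => ?_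
    unfold rounds
    ring
  refine Poly.all (l := fun p : List (List Bool) × ℕ => List.range p.1.length)
    (p := fun p v => decide (rounds p.1.length <
      (p.2 + 1) * (stateS p.1 (rounds p.1.length)).2.getD v 0))
    (UPoly.length (Poly.fst Poly.id)).range ?_
  refine Poly.decide_lt hT (Poly.mul (Poly.add (Poly.snd (Poly.fst Poly.id)) (NPC.Poly.const 1))
    (Poly.getD (Poly.snd (poly_run.comp (Poly.fst (Poly.fst Poly.id)))) (Poly.snd Poly.id)
      (NPC.Poly.const 0)))

end poly

end Pool.Agent.H219.BC
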