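import Pool.Agent.Y600.DC.Stm

/-!
# Balanced hypergraphs: bicolourings, good colourings, rounding (Berge)
-/

set_option autoImplicit false

namespace Pool.Agent.H219.BC

open Pool.Agent.Y600.DC

/-- the forbidden pattern, indexed by natural numbers -/
theorem nocyc {I V : Type} {R : I → V → Prop} (hR : RelBalanced R) (n : ℕ) (ho : Odd n)
    (hn : 3 ≤ n) (f : ℕ → V) (e : ℕ → I) (hf : ∀ i j, i < n → j < n → f i = f j → i = j)
    (h : ∀ i j, i < n → j < n → (R (e i) (f j) ↔ (j = i ∨ j = (i + 1) % n))) : False := by
  have : NeZero n := ⟨by omega⟩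
  have : Fact (1 < n) := ⟨by omega⟩
  refine hR n ho hn (fun i => e i.val) (fun i => f i.val) ?_ ?_
  · intro i j hij
    exact ZMod.val_injective _ (hf _ _ (ZMod.val_lt i) (ZMod.val_lt j) hij)
  · intro i j
    rw [h _ _ (ZMod.val_lt i) (ZMod.val_lt j)]
    have h1 : (i + 1).val = (i.val + 1) % n := by
      rw [ZMod.val_add, ZMod.val_one]
    rw [← h1]
    constructor
    · rintro (h2 | h2)
      · exact Or.inl (ZMod.val_injective _ h2)
      · exact Or.inr (ZMod.val_injective _ h2)
    · rintro (h2 | h2)
      · exact Or.inl (by rw [h2])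
      · exact Or.inr (by rw [h2])

/-- the graph of the edges with exactly two vertices in `W` -/
def twoG {I V : Type} (R : I → V → Prop) (W : Finset V) : SimpleGraph V where
  Adj x y := x ≠ y ∧ x ∈ W ∧ y ∈ W ∧ ∃ i, ∀ z ∈ W, R i z ↔ (z = x ∨ z = y)
  symm := ⟨fun x y ⟨h1, h2, h3, i, h4⟩ => ⟨h1.symm, h3, h2, i, fun z hz => by
    rw [h4 z hz, or_comm]⟩⟩
  loopless := ⟨fun x h => h.1 rfl⟩

/-- the graph with the vertex `x0` isolated -/
def delG {V : Type} (H : SimpleGraph V) (x0 : V) : SimpleGraph V where
  Adj x y := H.Adj x y ∧ x ≠ x0 ∧ y ≠ x0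
  symm := ⟨fun x y ⟨h1, h2, h3⟩ => ⟨h1.symm, h3, h2⟩⟩
  loopless := ⟨fun x h => H.loopless.irrefl x h.1⟩

theorem reach_del {V : Type} (H : SimpleGraph V) (r x0 : V)
    (hmax : ∀ y, H.Reachable r y → H.dist r y ≤ H.dist r x0) :
    ∀ n : ℕ, ∀ y, H.Reachable r y → H.dist r y = n → y ≠ x0 → (delG H x0).Reachable r y := by
  intro n
  induction n using Nat.strong_induction_on with
  | _ n ih =>
    intro y hy hd hne
    obtain ⟨p, hp⟩ := hy.symm.exists_walk_length_eq_dist
    cases p with
    | nil => exact SimpleGraph.Reachable.refl _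
    | cons h q =>
      rename_i z
      rw [SimpleGraph.Walk.length_cons, SimpleGraph.dist_comm] at hp
      have h1 : H.dist r z ≤ q.length := by
        rw [SimpleGraph.dist_comm]; exact SimpleGraph.dist_le q
      have hz : H.Reachable r z := ⟨q.reverse⟩
      have h2 : z ≠ x0 := by
        rintro rfl
        have := hmax y hy
        omega
      have h3 := ih (H.dist r z) (by omega) z hz rfl h2
      exact h3.trans (SimpleGraph.Adj.reachable ⟨h.symm, h2, hne⟩)

theorem walk_ne {V : Type} {H : SimpleGraph V} {x0 : V} {y y' : V} (p : (delG H x0).Walk y y')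
    (hy : y ≠ x0) (i : ℕ) : p.getVert i ≠ x0 := by
  induction p generalizing i with
  | nil => simpa using hy
  | cons h q ih =>
    cases i with
    | zero => simpa using hy
    | succ i =>
      rw [SimpleGraph.Walk.getVert_cons_succ]
      exact ih h.2.2 i

/-- **Berge's bicolouring.** -/
theorem bicol : S_BICOL := by
  intro I V R hR W
  classical
  induction hn : W.card using Nat.strong_induction_on generalizing W with
  | _ n ih =>
    rcases W.eq_empty_or_nonempty with h0 | ⟨r, hr⟩
    · subst h0
      refine ⟨fun _ => true, ?_⟩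
      rintro i ⟨x, hx, _⟩
      simp at hx
    set H := twoG R W with hH
    -- the farthest vertex
    obtain ⟨x0, hx0, hmax⟩ := Finset.exists_max_image (W.filter fun x => H.Reachable r x)
      (fun x => H.dist r x) ⟨r, by simp [hr]⟩
    rw [Finset.mem_filter] at hx0
    have hW : ∀ {y}, H.Reachable r y → y ∈ W := by
      intro y hy
      obtain ⟨p⟩ := hy.symm
      cases p with
      | nil => exact hr
      | cons h q => exact h.2.1
    have hmax' : ∀ y, H.Reachable r y → H.dist r y ≤ H.dist r x0 := fun y hy =>
      hmax y (Finset.mem_filter.2 ⟨hW hy, hy⟩)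
    obtain ⟨c, hc⟩ := ih (W.erase x0).card (by
      rw [← hn]; exact Finset.card_erase_lt_of_mem hx0.1) (W.erase x0) rfl
    -- the colouring is proper on the remaining graph
    have hprop : ∀ x y, (delG H x0).Adj x y → c x ≠ c y := by
      rintro x y ⟨⟨h1, h2, h3, i, h4⟩, h5, h6⟩ h7
      have h8 : R i x := (h4 x h2).2 (Or.inl rfl)
      have h9 : R i y := (h4 y h3).2 (Or.inr rfl)
      obtain ⟨z, hz, hz2, hz3⟩ := hc i ⟨x, Finset.mem_erase.2 ⟨h5, h2⟩, y,
        Finset.mem_erase.2 ⟨h6, h3⟩, h1, h8, h9⟩ (!c x)
      rcases (h4 z (Finset.mem_of_mem_erase hz)).1 hz2 with rfl | rfl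
      · simp at hz3
      · rw [h7] at hz3; simp at hz3
    have hsame : ∀ y y', H.Adj x0 y → H.Adj x0 y' → c y = c y' := by
      intro y y' hy hy'
      by_contra hne
      have hyx : y ≠ x0 := hy.1.symm
      have hyx' : y' ≠ x0 := hy'.1.symm
      have hry : (delG H x0).Reachable r y :=
        reach_del H r x0 hmax' _ y (hx0.2.trans hy.reachable) rfl hyx
      have hry' : (delG H x0).Reachable r y' :=
        reach_del H r x0 hmax' _ y' (hx0.2.trans hy'.reachable) rfl hyx'
      obtain ⟨q⟩ := hry.symm.trans hry'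
      let C : (delG H x0).Coloring Bool := SimpleGraph.Coloring.mk c (fun {a b} h => hprop a b h)
      have hodd : Odd (q.bypass).length := by
        rw [SimpleGraph.Coloring.odd_length_iff_not_congr C q.bypass]
        change (¬ (c y = true)) ↔ (c y' = true)
        revert hne
        cases c y <;> cases c y' <;> simp
      set p := q.bypass with hp
      have hpath : p.IsPath := SimpleGraph.Walk.bypass_isPath q
      set L := p.length with hL
      -- the cycle
      let f : ℕ → V := fun j => if j = 0 then x0 else p.getVert (j - 1)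
      have hinj : ∀ i j, i < L + 2 → j < L + 2 → f i = f j → i = j := by
        intro i j hi hj hij
        simp only [f] at hij
        split_ifs at hij with h1 h2 h2
        · omega
        · exact absurd hij.symm (walk_ne p hyx _)
        · exact absurd hij (walk_ne p hyx _)
        · have := hpath.getVert_injOn (by simp only [Set.mem_ofPred_eq]; omega)
            (by simp only [Set.mem_ofPred_eq]; omega) hij
          omega
      have hadj : ∀ i, i < L + 2 → H.Adj (f i) (f ((i + 1) % (L + 2))) := by
        intro i hi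
        rcases Nat.lt_or_ge (i + 1) (L + 2) with h1 | h1
        · rw [Nat.mod_eq_of_lt h1]
          simp only [f]
          rcases Nat.eq_zero_or_pos i with h2 | h2
          · subst h2
            simpa using hy
          · rw [if_neg (by omega), if_neg (by omega)]
            have h3 := p.adj_getVert_succ (i := i - 1) (by omega)
            have h4 : i + 1 - 1 = i - 1 + 1 := by omega
            rw [h4]
            exact h3.1
        · have h2 : i = L + 1 := by omega
          subst h2
          rw [show L + 1 + 1 = L + 2 from rfl, Nat.mod_self]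
          simp only [f]
          rw [if_neg (by omega), if_pos trivial, Nat.add_sub_cancel, hL,
            SimpleGraph.Walk.getVert_length]
          exact hy'.symm
      have hmem : ∀ i, i < L + 2 → f i ∈ W := fun i hi => (hadj i hi).2.1
      have hidx : ∀ i, ∃ e : I, i < L + 2 → ∀ z ∈ W,
          (R e z ↔ (z = f i ∨ z = f ((i + 1) % (L + 2)))) := by
        intro i
        rcases Nat.lt_or_ge i (L + 2) with h1 | h1
        · obtain ⟨_, _, _, e, he⟩ := hadj i h1
          exact ⟨e, fun _ => he⟩
        · obtain ⟨_, _, _, e, he⟩ := hadj 0 (by omega)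
          exact ⟨e, fun h => absurd h (by omega)⟩
      choose e he using hidx
      refine nocyc hR (L + 2) ?_ ?_ f e hinj ?_
      · obtain ⟨k, hk⟩ := hodd
        exact ⟨k + 1, by omega⟩
      · obtain ⟨k, hk⟩ := hodd
        omega
      · intro i j hi hj
        rw [he i hi (f j) (hmem j hj)]
        have h1 : (i + 1) % (L + 2) < L + 2 := Nat.mod_lt _ (by omega)
        constructor
        · rintro (h2 | h2)
          · exact Or.inl (hinj _ _ hj hi h2)
          · exact Or.inr (hinj _ _ hj h1 h2)
        · rintro (h2 | h2)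
          · exact Or.inl (by rw [h2])
          · exact Or.inr (by rw [← h2])
    -- the colour of `x0`
    obtain ⟨κ, hκ⟩ : ∃ κ : Bool, ∀ y, H.Adj x0 y → c y = !κ := by
      by_cases h : ∃ y, H.Adj x0 y
      · obtain ⟨y, hy⟩ := h
        exact ⟨!c y, fun y' hy' => by rw [hsame y' y hy' hy]; simp⟩
      · exact ⟨true, fun y hy => absurd ⟨y, hy⟩ h⟩
    refine ⟨fun x => if x = x0 then κ else c x, ?_⟩
    rintro i ⟨x, hx, y, hy, hxy, hix, hiy⟩ b
    by_cases hcase : ∃ x ∈ W.erase x0, ∃ y ∈ W.erase x0, x ≠ y ∧ R i x ∧ R i y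
    · obtain ⟨z, hz, h1, h2⟩ := hc i hcase b
      refine ⟨z, Finset.mem_of_mem_erase hz, h1, ?_⟩
      simp only
      rw [if_neg (Finset.ne_of_mem_erase hz)]
      exact h2
    · -- one of the two vertices is `x0`
      obtain ⟨y, hy, hyx, hiy, hi0⟩ : ∃ y ∈ W, y ≠ x0 ∧ R i y ∧ R i x0 := by
        by_cases h1 : x = x0
        · subst h1
          exact ⟨y, hy, hxy.symm, hiy, hix⟩
        · by_cases h2 : y = x0
          · subst h2
            exact ⟨x, hx, hxy, hix, hiy⟩
          · exact absurd ⟨x, Finset.mem_erase.2 ⟨h1, hx⟩, y, Finset.mem_erase.2 ⟨h2, hy⟩, hxy,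
              hix, hiy⟩ hcase
      have hadj : H.Adj x0 y := by
        refine ⟨hyx.symm, hx0.1, hy, i, fun z hz => ⟨fun h => ?_, ?_⟩⟩
        · by_contra h1
          rw [not_or] at h1
          exact hcase ⟨z, Finset.mem_erase.2 ⟨h1.1, hz⟩, y, Finset.mem_erase.2 ⟨hyx, hy⟩, h1.2,
            h, hiy⟩
        · rintro (rfl | rfl)
          · exact hi0
          · exact hiy
      have h1 := hκ y hadj
      by_cases hb : b = κ
      · exact ⟨x0, hx0.1, hi0, by simp [hb]⟩
      · refine ⟨y, hy, hiy, ?_⟩
        simp only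
        rw [if_neg hyx, h1]
        revert hb
        cases b <;> cases κ <;> simp

end Pool.Agent.H219.BC
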