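import Pool.Agent.H219.BC.Bicol

set_option autoImplicit false

namespace Pool.Agent.H219.BC

open Pool.Agent.Y600.DC

open Classical in
/-- the number of colours missing in an edge -/
noncomputable def miss {I V : Type} (R : I → V → Prop) {m : ℕ} (c : V → Fin m) (i : I) (b : Fin m) :
    ℕ := if ∃ x, R i x ∧ c x = b then 0 else 1

theorem miss_le {I V : Type} (R : I → V → Prop) {m : ℕ} (c : V → Fin m) (i : I) (b : Fin m) :
    miss R c i b ≤ 1 := by
  unfold miss; split_ifs <;> omega

theorem miss_zero {I V : Type} {R : I → V → Prop} {m : ℕ} {c : V → Fin m} {i : I} {b : Fin m}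
    (h : ∃ x, R i x ∧ c x = b) : miss R c i b = 0 := if_pos h

theorem miss_one {I V : Type} {R : I → V → Prop} {m : ℕ} {c : V → Fin m} {i : I} {b : Fin m}
    (h : ¬ ∃ x, R i x ∧ c x = b) : miss R c i b = 1 := if_neg h

theorem sum_two {m : ℕ} (b0 b1 : Fin m) (h : b0 ≠ b1) (g : Fin m → ℕ) :
    ∑ b, g b = g b0 + g b1 + ∑ b ∈ (Finset.univ.erase b0).erase b1, g b := by
  rw [← Finset.add_sum_erase _ _ (Finset.mem_univ b0), ← Finset.add_sum_erase (Finset.univ.erase b0)
    _ (Finset.mem_erase.2 ⟨h.symm, Finset.mem_univ b1⟩), add_assoc]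

/-- **Good colourings** of balanced hypergraphs. -/
theorem good : S_GOOD := by
  intro I V _ _ R hR m hm hsz
  classical
  have := Fintype.ofFinite I
  have := Fintype.ofFinite V
  have : NeZero m := ⟨by omega⟩
  obtain ⟨c, -, hc⟩ := Finset.exists_min_image (Finset.univ : Finset (V → Fin m))
    (fun c => ∑ i : I, ∑ b, miss R c i b) ⟨fun _ => 0, Finset.mem_univ _⟩
  refine ⟨c, ?_⟩
  by_contra hcon
  push Not at hcon
  obtain ⟨i0, b0, hb0⟩ := hcon
  -- two vertices of the edge with the same colour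
  obtain ⟨x1, y1, hxy, hix, hiy, hcxy⟩ : ∃ x y, x ≠ y ∧ R i0 x ∧ R i0 y ∧ c x = c y := by
    have h1 : (Finset.univ.erase b0 : Finset (Fin m)).card < (Finset.univ.filter (R i0)).card := by
      rw [Finset.card_erase_of_mem (Finset.mem_univ _), Finset.card_univ, Fintype.card_fin]
      have h2 := hsz i0
      rw [Set.ncard_eq_toFinset_card'] at h2
      have h3 : ({x | R i0 x} : Set V).toFinset = Finset.univ.filter (R i0) := by
        ext x; simp
      rw [h3] at h2
      omega
    obtain ⟨x, hx, y, hy, hxy, h2⟩ := Finset.exists_ne_map_eq_of_card_lt_of_maps_to h1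
      (f := c) (fun x hx => Finset.mem_coe.2 (Finset.mem_erase.2
        ⟨hb0 x (Finset.mem_filter.1 hx).2, Finset.mem_univ _⟩))
    exact ⟨x, y, hxy, (Finset.mem_filter.1 hx).2, (Finset.mem_filter.1 hy).2, h2⟩
  set b1 := c x1 with hb1
  have hb01 : b0 ≠ b1 := (hb0 x1 hix).symm
  obtain ⟨d, hd⟩ := bicol I V R hR (Finset.univ.filter fun x => c x = b0 ∨ c x = b1)
  let c' : V → Fin m := fun x => if c x = b0 ∨ c x = b1 then (if d x then b1 else b0) else c x
  have hW : ∀ x, x ∈ (Finset.univ.filter fun x => c x = b0 ∨ c x = b1) ↔ (c x = b0 ∨ c x = b1) := by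
    intro x; simp
  have hc'1 : ∀ x, (c x = b0 ∨ c x = b1) → c' x = if d x then b1 else b0 := fun x h => if_pos h
  have hc'2 : ∀ x, ¬ (c x = b0 ∨ c x = b1) → c' x = c x := fun x h => if_neg h
  -- the other colours
  have hoth : ∀ i, ∀ b ∈ (Finset.univ.erase b0).erase b1, miss R c' i b = miss R c i b := by
    intro i b hb
    have h1 : b ≠ b1 := Finset.ne_of_mem_erase hb
    have h2 : b ≠ b0 := Finset.ne_of_mem_erase (Finset.mem_of_mem_erase hb)
    have h3 : (∃ x, R i x ∧ c' x = b) ↔ (∃ x, R i x ∧ c x = b) := by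
      constructor
      · rintro ⟨x, hx, h3⟩
        by_cases h4 : c x = b0 ∨ c x = b1
        · rw [hc'1 x h4] at h3
          split_ifs at h3
          · exact absurd h3.symm h1
          · exact absurd h3.symm h2
        · rw [hc'2 x h4] at h3
          exact ⟨x, hx, h3⟩
      · rintro ⟨x, hx, h3⟩
        refine ⟨x, hx, ?_⟩
        rw [hc'2 x (by rw [h3]; exact not_or.2 ⟨h2, h1⟩)]
        exact h3
    by_cases h4 : ∃ x, R i x ∧ c x = b
    · rw [miss_zero h4, miss_zero (h3.2 h4)]
    · rw [miss_one h4, miss_one (fun h => h4 (h3.1 h))]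
  have hboth : ∀ i, (∃ x y, x ≠ y ∧ R i x ∧ R i y ∧ (c x = b0 ∨ c x = b1) ∧
      (c y = b0 ∨ c y = b1)) → miss R c' i b0 = 0 ∧ miss R c' i b1 = 0 := by
    rintro i ⟨x, y, h1, h2, h3, h4, h5⟩
    have h6 := hd i ⟨x, (hW x).2 h4, y, (hW y).2 h5, h1, h2, h3⟩
    obtain ⟨z, hz, hz1, hz2⟩ := h6 false
    obtain ⟨w, hw, hw1, hw2⟩ := h6 true
    exact ⟨miss_zero ⟨z, hz1, by rw [hc'1 z ((hW z).1 hz), hz2]; rfl⟩,
      miss_zero ⟨w, hw1, by rw [hc'1 w ((hW w).1 hw), hw2]; rfl⟩⟩
  have hle : ∀ i, miss R c' i b0 + miss R c' i b1 ≤ miss R c i b0 + miss R c i b1 := by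
    intro i
    by_cases h : ∃ x y, x ≠ y ∧ R i x ∧ R i y ∧ (c x = b0 ∨ c x = b1) ∧ (c y = b0 ∨ c y = b1)
    · obtain ⟨h1, h2⟩ := hboth i h
      omega
    · by_cases h3 : ∃ x, R i x ∧ (c x = b0 ∨ c x = b1)
      · obtain ⟨x, hx, h4⟩ := h3
        have h5 : miss R c' i b0 + miss R c' i b1 ≤ 1 := by
          have h6 := hc'1 x h4
          by_cases h7 : d x = true
          · rw [if_pos h7] at h6
            have := miss_zero (R := R) (i := i) ⟨x, hx, h6⟩
            have := miss_le R c' i b0
            omega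
          · rw [if_neg h7] at h6
            have := miss_zero (R := R) (i := i) ⟨x, hx, h6⟩
            have := miss_le R c' i b1
            omega
        have h6 : 1 ≤ miss R c i b0 + miss R c i b1 := by
          by_contra h7
          have h8 : miss R c i b0 = 0 := by omega
          have h9 : miss R c i b1 = 0 := by omega
          have h10 : ∃ y, R i y ∧ c y = b0 := by
            by_contra h11; rw [miss_one h11] at h8; omega
          have h12 : ∃ y, R i y ∧ c y = b1 := by
            by_contra h11; rw [miss_one h11] at h9; omega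
          obtain ⟨y, hy, hy'⟩ := h10
          obtain ⟨z, hz, hz'⟩ := h12
          refine h ⟨y, z, ?_, hy, hz, Or.inl hy', Or.inr hz'⟩
          rintro rfl
          exact hb01 (hy'.symm.trans hz')
        omega
      · have h4 : ∀ b, (b = b0 ∨ b = b1) → miss R c i b = 1 := by
          intro b hb
          apply miss_one
          rintro ⟨x, hx, hx'⟩
          exact h3 ⟨x, hx, by rw [hx']; exact hb⟩
        rw [h4 b0 (Or.inl rfl), h4 b1 (Or.inr rfl)]
        have := miss_le R c' i b0
        have := miss_le R c' i b1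
        omega
  have hlt : miss R c' i0 b0 + miss R c' i0 b1 < miss R c i0 b0 + miss R c i0 b1 := by
    obtain ⟨h1, h2⟩ := hboth i0 ⟨x1, y1, hxy, hix, hiy, Or.inr hb1.symm, Or.inr hcxy.symm⟩
    have h3 : miss R c i0 b0 = 1 := by
      apply miss_one
      rintro ⟨x, hx, hx'⟩
      exact hb0 x hx hx'
    omega
  have hrow : ∀ i, ∑ b, miss R c' i b ≤ ∑ b, miss R c i b := by
    intro i
    have h1 := sum_two b0 b1 hb01 (fun b => miss R c' i b)
    have h2 := sum_two b0 b1 hb01 (fun b => miss R c i b)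
    have h3 := Finset.sum_congr rfl (hoth i)
    have := hle i
    rw [h1, h2, h3]
    exact Nat.add_le_add_right this _
  have hrow0 : ∑ b, miss R c' i0 b < ∑ b, miss R c i0 b := by
    have h1 := sum_two b0 b1 hb01 (fun b => miss R c' i0 b)
    have h2 := sum_two b0 b1 hb01 (fun b => miss R c i0 b)
    have h3 := Finset.sum_congr rfl (hoth i0)
    rw [h1, h2, h3]
    exact Nat.add_lt_add_right hlt _
  have h1 := hc c' (Finset.mem_univ _)
  have h2 : ∑ i : I, ∑ b, miss R c' i b < ∑ i : I, ∑ b, miss R c i b :=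
    Finset.sum_lt_sum (fun i _ => hrow i) ⟨i0, Finset.mem_univ _, hrow0⟩
  omega

/-- **Rounding.** -/
theorem round : S_ROUND := by
  intro I V _ _ R hR a m hm hcov
  classical
  let V' := Σ x : V, Fin (a x)
  let R' : I → V' → Prop := fun i p => R i p.1
  have hR' : RelBalanced R' := by
    intro k ho hk e x _ h
    refine hR k ho hk e (fun j => (x j).1) ?_ h
    intro j j' hjj
    have : NeZero k := ⟨by omega⟩
    have h1 : ∀ i, (j = i ∨ j = i + 1) ↔ (j' = i ∨ j' = i + 1) := by
      intro i
      rw [← h i j, ← h i j']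
      change R (e i) (x j).1 ↔ R (e i) (x j').1
      simp only at hjj
      rw [hjj]
    by_contra hne
    have h2 : j' = j + 1 := ((h1 j).1 (Or.inl rfl)).resolve_left (Ne.symm hne)
    have h3 : j = j' + 1 := ((h1 j').2 (Or.inl rfl)).resolve_left hne
    rw [h2] at h3
    have h4 : ((2 : ℕ) : ZMod k) = 0 := by
      have : j + (1 + 1) = j + 0 := by rw [add_zero, ← add_assoc]; exact h3.symm
      have := add_left_cancel this
      rw [← this]; norm_num
    rw [ZMod.natCast_eq_zero_iff] at h4
    have := Nat.le_of_dvd (by norm_num) h4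
    omega
  obtain ⟨c, hc⟩ := good I V' R' hR' m hm (by
    intro i
    refine (hcov i).trans ?_
    rw [Set.ncard_eq_toFinset_card']
    have h3 : ({x | R' i x} : Set V').toFinset =
        (Finset.univ.filter (fun x => R i x)).sigma (fun x => (Finset.univ : Finset (Fin (a x)))) := by
      ext ⟨x, k⟩
      rw [Finset.mem_sigma]
      simp [R']
    rw [h3, Finset.card_sigma]
    simp)
  have : NeZero m := ⟨by omega⟩
  have htot : ∑ b : Fin m, (Finset.univ.filter (fun p : V' => c p = b)).card = ∑ x, a x := by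
    rw [← Finset.card_eq_sum_card_fiberwise (f := c) (s := Finset.univ) (t := Finset.univ)
      (fun _ _ => Finset.mem_coe.2 (Finset.mem_univ _)), Finset.card_univ]
    simp [V']
  obtain ⟨b, hb⟩ : ∃ b : Fin m, m * (Finset.univ.filter (fun p : V' => c p = b)).card ≤ ∑ x, a x := by
    by_contra hcon
    push Not at hcon
    have h1 : ∑ b : Fin m, (∑ x, a x) <
        ∑ b : Fin m, m * (Finset.univ.filter (fun p : V' => c p = b)).card :=
      Finset.sum_lt_sum_of_nonempty ⟨0, Finset.mem_univ _⟩ (fun b _ => hcon b)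
    rw [← Finset.mul_sum, htot, Finset.sum_const, Finset.card_univ, Fintype.card_fin,
      smul_eq_mul] at h1
    omega
  refine ⟨(Finset.univ.filter (fun p : V' => c p = b)).image Sigma.fst, ?_, ?_⟩
  · intro i
    obtain ⟨x, hx, hx'⟩ := hc i b
    exact ⟨x.1, Finset.mem_image.2 ⟨x, by simp [hx'], rfl⟩, hx⟩
  · exact (Nat.mul_le_mul_left _ Finset.card_image_le).trans hb

end Pool.Agent.H219.BC
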